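import Pool.Agent.Helper12.ES.Word

set_option autoImplicit false

open Finset

namespace Pool.Agent.Helper12.ES

theorem card_NS (D : ℕ) : (Fintype.card (NS D) : ℝ) = 2 ^ D - D := by
  classical
  have h1 : Fintype.card {s : Finset (Fin D) // ¬ s.card = 1} =
      Fintype.card (Finset (Fin D)) - Fintype.card {s : Finset (Fin D) // s.card = 1} :=
    Fintype.card_subtype_compl _
  rw [Fintype.card_finset_len, Fintype.card_finset, Fintype.card_fin, Nat.choose_one_right] at h1
  have h2 : Fintype.card (NS D) = 2 ^ D - D := h1
  rw [h2, Nat.cast_sub (Nat.lt_two_pow_self).le]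
  push_cast
  ring

/-- The number of good slice words. -/
theorem card_Good (b D r N : ℕ) (θ : ℝ) (h0 : 0 < θ) (h1 : θ ≤ 1) (hθ : 1 / 2 ≤ θ ^ r) :
    (Fintype.card (Good b D r N) : ℝ) ≤ (2 * θ * b + θ * D + (2 ^ D - D)) ^ N := by
  classical
  let w : CC b D → ℝ := fun c => match c with
    | Sum.inl (Sum.inl _) => 2 * θ
    | Sum.inl (Sum.inr _) => θ
    | Sum.inr _ => 1
  have hw0 : ∀ c, 0 ≤ w c := by
    intro c
    rcases c with (i | y) | e
    · simp only [w]; positivity
    · simp only [w]; positivity
    · simp only [w]; positivity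
  have hwsum : ∑ c, w c = 2 * θ * b + θ * D + (2 ^ D - D) := by
    rw [Fintype.sum_sum_type, Fintype.sum_sum_type]
    simp only [w, sum_const, card_univ, Fintype.card_fin, nsmul_eq_mul, mul_one]
    rw [card_NS]
    ring
  have hwform : ∀ c, w c = (if isS c then θ else 1) * (if isB c then 2 else 1) := by
    intro c
    rcases c with (i | y) | e
    · simp [w, isS, isB]; ring
    · simp [w, isS, isB]
    · simp [w, isS, isB]
  have hgood : ∀ c : Good b D r N, 1 ≤ ∏ g, w (c.1 g) := by
    intro c
    have hc := c.2
    simp only [hwform]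
    rw [prod_mul_distrib, prod_ite, prod_ite]
    simp only [prod_const, one_pow, mul_one]
    rw [Nat.card_eq_fintype_card, Fintype.card_subtype, Nat.card_eq_fintype_card,
      Fintype.card_subtype] at hc
    set x := (univ.filter (fun g : Fin N => isS (c.1 g))).card with hx
    set y := (univ.filter (fun g : Fin N => isB (c.1 g))).card with hy
    calc (1 : ℝ) = (1 / 2) ^ y * 2 ^ y := by
          rw [← mul_pow]; norm_num
      _ ≤ (θ ^ r) ^ y * 2 ^ y := by
          apply mul_le_mul_of_nonneg_right _ (by positivity)
          exact pow_le_pow_left₀ (by norm_num) hθ y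
      _ = θ ^ (r * y) * 2 ^ y := by rw [pow_mul]
      _ ≤ θ ^ x * 2 ^ y := by
          apply mul_le_mul_of_nonneg_right _ (by positivity)
          exact pow_le_pow_of_le_one h0.le h1 hc
  calc (Fintype.card (Good b D r N) : ℝ) = ∑ _c : Good b D r N, (1 : ℝ) := by
        rw [sum_const, card_univ, nsmul_eq_mul, mul_one]
    _ ≤ ∑ c : Good b D r N, ∏ g, w (c.1 g) := sum_le_sum fun c _ => hgood c
    _ ≤ ∑ c : Fin N → CC b D, ∏ g, w (c g) := by
        have hinj : Function.Injective (fun c : Good b D r N => (c.1 : Fin N → CC b D)) :=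
          fun a b hab => Subtype.ext hab
        rw [← sum_image (s := univ) (g := fun c : Good b D r N => (c.1 : Fin N → CC b D))
          (f := fun c : Fin N → CC b D => ∏ g, w (c g)) (fun a _ b _ hab => hinj hab)]
        apply sum_le_sum_of_subset_of_nonneg (subset_univ _)
        intro c _ _
        exact prod_nonneg fun g _ => hw0 _
    _ = (∑ c, w c) ^ N := by
        have := Finset.prod_univ_sum (fun _ : Fin N => (univ : Finset (CC b D)))
          (fun _ c => w c)
        rw [Fintype.piFinset_univ] at this
        rw [← this, prod_const, card_univ, Fintype.card_fin]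
    _ = _ := by rw [hwsum]

end Pool.Agent.Helper12.ES
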