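import Mathlib

set_option autoImplicit false

open Finset

namespace Pool.Agent.Helper12.ES

/-- A polynomial expression of low degree in each variable which vanishes at all injective tuples
is zero. -/
theorem coef_zero (k D : ℕ) : ∀ r : ℕ, k + r ≤ D + 1 → ∀ f : (Fin r → Fin k) → ℚ,
    (∀ x : Fin r → Fin D, Function.Injective x →
      ∑ e : Fin r → Fin k, f e * ∏ j, ((x j : ℕ) : ℚ) ^ (e j : ℕ) = 0) → ∀ e, f e = 0 := by
  intro r
  induction r with
  | zero =>
    intro _ f hf e
    have h := hf (fun j => j.elim0) (fun j => j.elim0)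
    rw [Fintype.sum_unique] at h
    simp only [univ_eq_empty, prod_empty, mul_one] at h
    rw [← h]
    congr 1
    exact Subsingleton.elim _ _
  | succ r ih =>
    intro hr f hf e
    have key : ∀ i : Fin k, ∀ e' : Fin r → Fin k, f (Fin.cons i e') = 0 := by
      intro i
      apply ih (by omega)
      intro x' hx'
      -- the polynomial in the first variable
      set c : Fin k → ℚ := fun i => ∑ e' : Fin r → Fin k,
        f (Fin.cons i e') * ∏ j, ((x' j : ℕ) : ℚ) ^ (e' j : ℕ) with hc
      set p : Polynomial ℚ := ∑ i : Fin k, Polynomial.C (c i) * Polynomial.X ^ (i : ℕ) with hp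
      have hdeg : p.degree < k := Polynomial.degree_sum_fin_lt c
      set s : Finset (Fin D) := univ \ (univ.image x') with hs
      have hcard : k ≤ s.card := by
        rw [hs, card_sdiff_of_subset (subset_univ _), card_image_of_injective _ hx']
        simp only [card_univ, Fintype.card_fin]
        omega
      have hp0 : p = 0 := by
        refine Polynomial.eq_zero_of_degree_lt_of_eval_index_eq_zero (s := s)
          (v := fun y : Fin D => ((y : ℕ) : ℚ)) ?_ ?_ ?_
        · intro a _ b _ hab
          have hab' : ((a : ℕ) : ℚ) = ((b : ℕ) : ℚ) := hab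
          have : (a : ℕ) = (b : ℕ) := by exact_mod_cast hab'
          exact Fin.ext this
        · refine lt_of_lt_of_le hdeg ?_
          exact_mod_cast hcard
        · intro y hy
          have hy' : ∀ j, x' j ≠ y := by
            intro j hj
            rw [hs, mem_sdiff] at hy
            exact hy.2 (mem_image.2 ⟨j, mem_univ _, hj⟩)
          have hinj : Function.Injective (Fin.cons y x' : Fin (r + 1) → Fin D) := by
            rw [Fin.cons_injective_iff]
            refine ⟨?_, hx'⟩
            rintro ⟨j, hj⟩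
            exact hy' j hj
          have h := hf (Fin.cons y x') hinj
          rw [← (Fin.consEquiv (fun _ : Fin (r + 1) => Fin k)).sum_comp, Fintype.sum_prod_type] at h
          rw [hp, Polynomial.eval_finsetSum]
          rw [← h]
          refine sum_congr rfl fun i _ => ?_
          rw [Polynomial.eval_mul, Polynomial.eval_C, Polynomial.eval_pow, Polynomial.eval_X, hc]
          simp only
          rw [sum_mul]
          refine sum_congr rfl fun e' _ => ?_
          rw [Fin.prod_univ_succ]
          have hce : (Fin.consEquiv fun _ : Fin (r + 1) => Fin k) (i, e') = Fin.cons i e' := rfl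
          rw [hce]
          simp only [Fin.cons_zero, Fin.cons_succ]
          ring
      have hci : ∀ i, c i = 0 := by
        intro i
        have h := congrArg (fun q : Polynomial ℚ => q.coeff (i : ℕ)) hp0
        simp only [hp, Polynomial.finsetSum_coeff, Polynomial.coeff_C_mul, Polynomial.coeff_X_pow,
          Polynomial.coeff_zero] at h
        rw [← h]
        symm
        rw [sum_eq_single i]
        · simp
        · intro b _ hb
          rw [if_neg, mul_zero]
          intro hbi
          exact hb (Fin.ext hbi.symm)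
        · intro h
          exact absurd (mem_univ _) h
      exact hci i
    have := key (e 0) (Fin.tail e)
    rwa [Fin.cons_self_tail] at this

/-- The tensor. -/
theorem exists_T (k D r : ℕ) (hr : 2 ≤ r) (hkr : k + r ≤ D + 1) :
    ∃ T : (Fin r → Fin D) → ℚ,
      (∀ a : Fin D, T (fun _ => a) = 1) ∧
      (∀ x, T x ≠ 0 → (∃ a, x = fun _ => a) ∨ Function.Injective x) ∧
      (∀ e : Fin r → Fin k, ∑ x, T x * ∏ j, ((x j : ℕ) : ℚ) ^ (e j : ℕ) = 0) := by
  classical
  let L : ((Fin r → Fin k) → ℚ) →ₗ[ℚ] ({x : Fin r → Fin D // Function.Injective x} → ℚ) :=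
    { toFun := fun f x => ∑ e, f e * ∏ j, ((x.1 j : ℕ) : ℚ) ^ (e j : ℕ)
      map_add' := by
        intro f g
        funext x
        simp only [Pi.add_apply, add_mul, sum_add_distrib]
      map_smul' := by
        intro c f
        funext x
        simp only [Pi.smul_apply, smul_eq_mul, RingHom.id_apply, mul_sum, mul_assoc] }
  have hLker : LinearMap.ker L = ⊥ := by
    rw [LinearMap.ker_eq_bot']
    intro f hf
    funext e
    refine coef_zero k D r hkr f ?_ e
    intro x hx
    have := congrFun hf ⟨x, hx⟩
    exact this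
  obtain ⟨G, hG⟩ := LinearMap.exists_leftInverse_of_injective L hLker
  let lam : ((Fin r → Fin k) → ℚ) →ₗ[ℚ] ℚ :=
    { toFun := fun f => ∑ a : Fin D, ∑ e, f e * ∏ j, (((a : ℕ) : ℚ)) ^ (e j : ℕ)
      map_add' := by
        intro f g
        simp only [Pi.add_apply, add_mul, sum_add_distrib]
      map_smul' := by
        intro c f
        simp only [Pi.smul_apply, smul_eq_mul, RingHom.id_apply, mul_sum, mul_assoc] }
  let t : {x : Fin r → Fin D // Function.Injective x} → ℚ := fun x =>
    - lam (G (Pi.single x 1))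
  have ht : ∀ f : (Fin r → Fin k) → ℚ, ∑ x, t x * L f x = - lam f := by
    intro f
    have h1 : G (L f) = f := by
      have := congrArg (fun M => M f) hG
      simpa using this
    have h2 : L f = ∑ x, (L f x) • (Pi.single x (1 : ℚ) :
        {x : Fin r → Fin D // Function.Injective x} → ℚ) := by
      funext y
      rw [Finset.sum_apply]
      simp only [Pi.smul_apply, Pi.single_apply, smul_eq_mul, mul_ite, mul_one, mul_zero]
      rw [Finset.sum_ite_eq]
      simp
    conv_rhs => rw [← h1, h2, map_sum, map_sum]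
    rw [← sum_neg_distrib]
    refine sum_congr rfl fun x _ => ?_
    rw [map_smul, map_smul, smul_eq_mul]
    simp only [t]
    ring
  refine ⟨fun x => (∑ a : Fin D, if x = (fun _ => a) then (1 : ℚ) else 0) +
    (if h : Function.Injective x then t ⟨x, h⟩ else 0), ?_, ?_, ?_⟩
  · intro a
    have hni : ¬ Function.Injective (fun _ : Fin r => a) := by
      intro h
      have h01 := @h ⟨0, by omega⟩ ⟨1, by omega⟩ rfl
      simp at h01
    beta_reduce
    rw [dif_neg hni, add_zero, sum_eq_single a]
    · simp
    · intro b _ hb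
      rw [if_neg]
      intro h
      exact hb (congrFun h ⟨0, by omega⟩).symm
    · intro h
      exact absurd (mem_univ _) h
  · intro x hx
    by_cases hi : Function.Injective x
    · exact Or.inr hi
    · left
      by_contra hne
      push Not at hne
      apply hx
      beta_reduce
      rw [dif_neg hi, add_zero]
      refine sum_eq_zero fun a _ => ?_
      rw [if_neg (hne a)]
  · intro e
    have h1 := ht (Pi.single e 1)
    have hL : ∀ x : {x : Fin r → Fin D // Function.Injective x},
        L (Pi.single e 1) x = ∏ j, ((x.1 j : ℕ) : ℚ) ^ (e j : ℕ) := by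
      intro x
      change ∑ e', (Pi.single e (1 : ℚ) : (Fin r → Fin k) → ℚ) e' *
        ∏ j, ((x.1 j : ℕ) : ℚ) ^ (e' j : ℕ) = _
      rw [sum_eq_single e]
      · simp
      · intro b _ hb
        rw [Pi.single_eq_of_ne hb, zero_mul]
      · intro h
        exact absurd (mem_univ _) h
    have hlam : lam (Pi.single e 1) = ∑ a : Fin D, ∏ j, ((a : ℕ) : ℚ) ^ (e j : ℕ) := by
      change ∑ a : Fin D, ∑ e', (Pi.single e (1 : ℚ) : (Fin r → Fin k) → ℚ) e' *
        ∏ j, ((a : ℕ) : ℚ) ^ (e' j : ℕ) = _
      refine sum_congr rfl fun a _ => ?_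
      rw [sum_eq_single e]
      · simp
      · intro b _ hb
        rw [Pi.single_eq_of_ne hb, zero_mul]
      · intro h
        exact absurd (mem_univ _) h
    simp only [hL, hlam] at h1
    simp only [add_mul, sum_add_distrib]
    have hA : ∑ x : Fin r → Fin D, (∑ a : Fin D, if x = (fun _ => a) then (1 : ℚ) else 0) *
        ∏ j, ((x j : ℕ) : ℚ) ^ (e j : ℕ) = ∑ a : Fin D, ∏ j : Fin r, ((a : ℕ) : ℚ) ^ (e j : ℕ) := by
      simp only [sum_mul]
      rw [sum_comm]
      refine sum_congr rfl fun a _ => ?_
      rw [sum_eq_single (fun _ => a)]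
      · simp
      · intro b _ hb
        rw [if_neg hb, zero_mul]
      · intro h
        exact absurd (mem_univ _) h
    have hB : ∑ x : Fin r → Fin D, (if h : Function.Injective x then t ⟨x, h⟩ else 0) *
        ∏ j, ((x j : ℕ) : ℚ) ^ (e j : ℕ) =
        ∑ x : {x : Fin r → Fin D // Function.Injective x}, t x *
          ∏ j, ((x.1 j : ℕ) : ℚ) ^ (e j : ℕ) := by
      rw [← Finset.sum_filter_add_sum_filter_not univ (fun x : Fin r → Fin D =>
        Function.Injective x)]
      have hz : ∑ x ∈ univ.filter (fun x : Fin r → Fin D => ¬ Function.Injective x),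
          (if h : Function.Injective x then t ⟨x, h⟩ else 0) *
            ∏ j, ((x j : ℕ) : ℚ) ^ (e j : ℕ) = 0 := by
        refine sum_eq_zero fun x hx => ?_
        rw [mem_filter] at hx
        rw [dif_neg hx.2, zero_mul]
      rw [hz, add_zero]
      rw [Finset.sum_subtype (p := fun x : Fin r → Fin D => Function.Injective x)
        (F := inferInstance) _ (by intro x; simp)]
      refine sum_congr rfl fun x _ => ?_
      rw [dif_pos x.2]
    rw [hA, hB, h1]
    ring

/-- Decomposition of the tensor into slices. -/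
theorem slices (k b D r : ℕ) (hkb : k + b = D) (T : (Fin r → Fin D) → ℚ)
    (hT : ∀ e : Fin r → Fin k, ∑ x, T x * ∏ j, ((x j : ℕ) : ℚ) ^ (e j : ℕ) = 0) :
    ∃ (H : Fin b ⊕ Fin D → Fin D → ℚ) (τ : (Fin r → Fin b ⊕ Fin D) → ℚ),
      (∀ z, T z = ∑ c, τ c * ∏ j, H (c j) (z j)) ∧
      (∀ c, τ c ≠ 0 → ∃ j i, c j = Sum.inl i) := by
  classical
  have hinj : Set.InjOn (fun y : Fin D => ((y : ℕ) : ℚ)) (univ : Finset (Fin D)) := by
    intro a _ c _ hac
    have hac' : ((a : ℕ) : ℚ) = ((c : ℕ) : ℚ) := hac
    have : (a : ℕ) = (c : ℕ) := by exact_mod_cast hac'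
    exact Fin.ext this
  set p : Fin D → Polynomial ℚ := fun z =>
    Lagrange.basis univ (fun y : Fin D => ((y : ℕ) : ℚ)) z with hp
  have hev : ∀ z x : Fin D, (p z).eval ((x : ℕ) : ℚ) = if x = z then 1 else 0 := by
    intro z x
    by_cases hxz : x = z
    · subst hxz
      rw [if_pos rfl]
      exact Lagrange.eval_basis_self hinj (mem_univ _)
    · rw [if_neg hxz]
      exact Lagrange.eval_basis_of_ne (v := fun y : Fin D => ((y : ℕ) : ℚ)) (Ne.symm hxz)
        (mem_univ _)
  have hdeg : ∀ z : Fin D, (p z).natDegree < D := by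
    intro z
    have hD : 0 < D := lt_of_le_of_lt (Nat.zero_le _) z.2
    have h1 : (p z).degree = ((#(univ : Finset (Fin D)) - 1 : ℕ) : WithBot ℕ) :=
      Lagrange.degree_basis hinj (mem_univ z)
    have h2 := Polynomial.natDegree_eq_of_degree_eq_some h1
    rw [h2]
    simp only [card_univ, Fintype.card_fin]
    omega
  let κ : Fin b ⊕ Fin D → Fin D → ℚ := fun c x => match c with
    | Sum.inl i => ((x : ℕ) : ℚ) ^ (k + (i : ℕ))
    | Sum.inr z => ∑ e : Fin k, (p z).coeff e * ((x : ℕ) : ℚ) ^ (e : ℕ)
  let H : Fin b ⊕ Fin D → Fin D → ℚ := fun c z => match c with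
    | Sum.inl i => (p z).coeff (k + (i : ℕ))
    | Sum.inr y => if y = z then 1 else 0
  have hdec : ∀ z x : Fin D, ∑ c, κ c x * H c z = if x = z then 1 else 0 := by
    intro z x
    rw [Fintype.sum_sum_type]
    have h1 : ∑ i : Fin b, κ (Sum.inl i) x * H (Sum.inl i) z =
        ∑ i : Fin b, (p z).coeff (k + (i : ℕ)) * ((x : ℕ) : ℚ) ^ (k + (i : ℕ)) := by
      refine sum_congr rfl fun i _ => ?_
      simp only [κ, H]
      ring
    have h2 : ∑ y : Fin D, κ (Sum.inr y) x * H (Sum.inr y) z =
        ∑ e : Fin k, (p z).coeff e * ((x : ℕ) : ℚ) ^ (e : ℕ) := by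
      rw [sum_eq_single z]
      · simp [κ, H]
      · intro y _ hy
        simp only [H]
        rw [if_neg hy, mul_zero]
      · intro h
        exact absurd (mem_univ _) h
    have h3 : ∑ i ∈ range D, (p z).coeff i * ((x : ℕ) : ℚ) ^ i =
        ∑ i ∈ range (k + b), (p z).coeff i * ((x : ℕ) : ℚ) ^ i :=
      congrArg (fun m => ∑ i ∈ range m, (p z).coeff i * ((x : ℕ) : ℚ) ^ i) hkb.symm
    rw [h1, h2, ← hev z x, Polynomial.eval_eq_sum_range' (hdeg z), h3,
      Finset.sum_range_add, add_comm, Finset.sum_range, Finset.sum_range]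
  refine ⟨H, fun c => ∑ x, T x * ∏ j, κ (c j) (x j), ?_, ?_⟩
  · intro z
    have h1 : T z = ∑ x, T x * ∏ j, (if x j = z j then (1 : ℚ) else 0) := by
      rw [sum_eq_single z]
      · simp
      · intro x _ hx
        obtain ⟨j, hj⟩ := Function.ne_iff.1 hx
        rw [prod_eq_zero (mem_univ j), mul_zero]
        rw [if_neg hj]
      · intro h
        exact absurd (mem_univ _) h
    rw [h1]
    simp only [← hdec]
    simp only [Finset.prod_univ_sum, Fintype.piFinset_univ, mul_sum, sum_mul]
    rw [sum_comm]
    refine sum_congr rfl fun c _ => sum_congr rfl fun x _ => ?_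
    rw [prod_mul_distrib, mul_assoc]
  · intro c hc
    by_contra hne
    push Not at hne
    have hz : ∀ j, ∃ z, c j = Sum.inr z := by
      intro j
      cases h : c j with
      | inl i => exact absurd h (hne j i)
      | inr z => exact ⟨z, rfl⟩
    choose z hz using hz
    apply hc
    simp only [hz, κ]
    simp only [Finset.prod_univ_sum, Fintype.piFinset_univ, mul_sum]
    rw [sum_comm]
    refine sum_eq_zero fun e _ => ?_
    have : ∀ x : Fin r → Fin D, T x * ∏ j, ((p (z j)).coeff (e j) * ((x j : ℕ) : ℚ) ^ (e j : ℕ)) =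
        (∏ j, (p (z j)).coeff (e j)) * (T x * ∏ j, ((x j : ℕ) : ℚ) ^ (e j : ℕ)) := by
      intro x
      rw [prod_mul_distrib]
      ring
    simp only [this]
    rw [← mul_sum, hT e, mul_zero]

end Pool.Agent.Helper12.ES
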