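import Pool.Agent.Helper12.ES.Count

set_option autoImplicit false

open Finset

namespace Pool.Agent.Helper12.ES

/-- The position of letter `a` of block `g`. -/
def pos {N D n : ℕ} (h : N * D ≤ n) (g : Fin N) (a : Fin D) : Fin n :=
  Fin.castLE h (finProdFinEquiv (g, a))

/-- The word of a set. -/
noncomputable def word {N D n : ℕ} (h : N * D ≤ n) (X : Finset (Fin n)) : Fin N → Finset (Fin D) :=
  fun g => univ.filter (fun a => pos h g a ∈ X)

theorem mem_word {N D n : ℕ} (h : N * D ≤ n) (X : Finset (Fin n)) (g : Fin N) (a : Fin D) :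
    a ∈ word h X g ↔ pos h g a ∈ X := by
  simp [word]

theorem exists_pos {N D n : ℕ} (h : N * D ≤ n) (x : Fin n) (hx : x.val < N * D) :
    ∃ g a, x = pos h g a := by
  refine ⟨(finProdFinEquiv.symm (⟨x.val, hx⟩ : Fin (N * D))).1,
    (finProdFinEquiv.symm (⟨x.val, hx⟩ : Fin (N * D))).2, ?_⟩
  unfold pos
  rw [Prod.mk.eta, Equiv.apply_symm_apply]
  rfl

/-- The bound for subsets of an `n`-set. -/
theorem set_bound (b D r N n : ℕ) (hr : 2 ≤ r) (hb : b + 1 = r) (hbD : b ≤ D)
    (h : N * D ≤ n) (h' : n ≤ N * D + D)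
    (F : Finset (Finset (Fin n)))
    (hF : ¬ ∃ S : Fin r → Finset (Fin n), Function.Injective S ∧ (∀ i, S i ∈ F) ∧
            ∀ x : Fin n, (Finset.univ.filter (fun i => x ∈ S i)).card ≤ 1 ∨
              (Finset.univ.filter (fun i => x ∈ S i)).card = r) :
    F.card ≤ 2 * Fintype.card (Good b D r N) * 2 ^ D := by
  classical
  set R : Finset (Fin n) := univ.filter (fun x : Fin n => N * D ≤ x.val) with hR
  have hRcard : R.card ≤ D := by
    have h1 : R.card ≤ (Finset.Ico (N * D) n).card := by
      apply card_le_card_of_injOn (fun x : Fin n => x.val)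
      · intro x hx
        have hx' : N * D ≤ x.val := by
          have := (mem_coe.1 hx)
          rw [hR, mem_filter] at this
          exact this.2
        exact mem_coe.2 (mem_Ico.2 ⟨hx', x.2⟩)
      · intro x _ y _ hxy
        exact Fin.ext hxy
    rw [Nat.card_Ico] at h1
    omega
  have hfib : ∀ ρ ∈ F.image (fun X => X ∩ R), #{X ∈ F | X ∩ R = ρ} ≤
      2 * Fintype.card (Good b D r N) := by
    intro ρ _
    set Fρ : Finset (Finset (Fin n)) := F.filter (fun X => X ∩ R = ρ) with hFρ
    have hinj : Set.InjOn (word h) (Fρ : Set (Finset (Fin n))) := by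
      intro X hX Y hY hXY
      rw [mem_coe, hFρ, mem_filter] at hX hY
      ext x
      by_cases hx : x.val < N * D
      · obtain ⟨g, a, rfl⟩ := exists_pos h x hx
        rw [← mem_word, ← mem_word, hXY]
      · have hxR : x ∈ R := by
          rw [hR, mem_filter]
          exact ⟨mem_univ _, not_lt.1 hx⟩
        have h1 : x ∈ X ∩ R ↔ x ∈ Y ∩ R := by rw [hX.2, hY.2]
        rw [mem_inter, mem_inter] at h1
        tauto
    rw [← card_image_of_injOn hinj]
    refine word_bound (D - b) b D r N (by omega) hr (by omega) _ ?_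
    intro X hX hXF hall
    have hpre : ∀ j, ∃ S, S ∈ Fρ ∧ word h S = X j := by
      intro j
      obtain ⟨S, hS, hSX⟩ := mem_image.1 (hXF j)
      exact ⟨S, hS, hSX⟩
    choose S hS hSX using hpre
    apply hF
    refine ⟨S, ?_, ?_, ?_⟩
    · intro i j hij
      apply hX
      rw [← hSX i, ← hSX j, hij]
    · intro i
      have := hS i
      rw [hFρ, mem_filter] at this
      exact this.1
    · intro x
      by_cases hx : x.val < N * D
      · obtain ⟨g, a, rfl⟩ := exists_pos h x hx
        have hmem : ∀ i, pos h g a ∈ S i ↔ a ∈ X i g := by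
          intro i
          rw [← mem_word, hSX i]
        rcases hall g with ⟨u, hu⟩ | ⟨z, hz, hzz⟩
        · have hu' : ∀ i, X i g = u := fun i => congrFun hu i
          by_cases ha : a ∈ u
          · right
            have : (univ.filter (fun i => pos h g a ∈ S i)) = univ := by
              apply filter_true_of_mem
              intro i _
              rw [hmem, hu']
              exact ha
            rw [this, card_univ, Fintype.card_fin]
          · left
            have : (univ.filter (fun i => pos h g a ∈ S i)) = ∅ := by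
              apply filter_false_of_mem
              intro i _
              rw [hmem, hu']
              exact ha
            rw [this, card_empty]
            exact Nat.zero_le _
        · left
          rw [card_le_one]
          intro i hi j hj
          rw [mem_filter, hmem] at hi hj
          have hi' : X i g = {z i} := congrFun hzz i
          have hj' : X j g = {z j} := congrFun hzz j
          rw [hi', mem_singleton] at hi
          rw [hj', mem_singleton] at hj
          exact hz (hi.2.symm.trans hj.2)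
      · have hxR : x ∈ R := by
          rw [hR, mem_filter]
          exact ⟨mem_univ _, not_lt.1 hx⟩
        have hmem : ∀ i, x ∈ S i ↔ x ∈ ρ := by
          intro i
          have := hS i
          rw [hFρ, mem_filter] at this
          rw [← this.2, mem_inter]
          tauto
        by_cases hρ : x ∈ ρ
        · right
          have : (univ.filter (fun i => x ∈ S i)) = univ := by
            apply filter_true_of_mem
            intro i _
            rw [hmem]
            exact hρ
          rw [this, card_univ, Fintype.card_fin]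
        · left
          have : (univ.filter (fun i => x ∈ S i)) = ∅ := by
            apply filter_false_of_mem
            intro i _
            rw [hmem]
            exact hρ
          rw [this, card_empty]
          exact Nat.zero_le _
  have h1 := card_le_mul_card_image F _ hfib
  refine h1.trans (Nat.mul_le_mul_left _ ?_)
  calc (F.image (fun X => X ∩ R)).card ≤ R.powerset.card := by
        apply card_le_card
        intro Y hY
        obtain ⟨X, _, rfl⟩ := mem_image.1 hY
        rw [mem_powerset]
        exact inter_subset_right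
    _ = 2 ^ R.card := card_powerset _
    _ ≤ 2 ^ D := Nat.pow_le_pow_right (by norm_num) hRcard

/-- The Erdos Szemeredi sunflower conjecture. -/
theorem sunflower (r : ℕ) (hr : 2 ≤ r) :
    ∃ c : ℝ, c < 2 ∧ ∃ N : ℕ, ∀ n : ℕ, N ≤ n →
      ∀ F : Finset (Finset (Fin n)),
        (¬ ∃ S : Fin r → Finset (Fin n), Function.Injective S ∧ (∀ i, S i ∈ F) ∧
            ∀ x : Fin n, (Finset.univ.filter (fun i => x ∈ S i)).card ≤ 1 ∨
              (Finset.univ.filter (fun i => x ∈ S i)).card = r) →
        (F.card : ℝ) ≤ c ^ n := by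
  obtain ⟨b, rfl⟩ : ∃ b, r = b + 1 := ⟨r - 1, by omega⟩
  set D : ℕ := 4 * (b + 1) ^ 2 with hD
  have hDpos : 0 < D := by positivity
  set θ : ℝ := 1 - 1 / (2 * ((b + 1 : ℕ) : ℝ)) with hθ
  have hrpos : (0 : ℝ) < ((b + 1 : ℕ) : ℝ) := by positivity
  have hrge : (2 : ℝ) ≤ ((b + 1 : ℕ) : ℝ) := by exact_mod_cast hr
  have hinv : 1 / (2 * ((b + 1 : ℕ) : ℝ)) ≤ 1 / 4 := by
    apply one_div_le_one_div_of_le (by norm_num)
    linarith
  have hinv0 : 0 < 1 / (2 * ((b + 1 : ℕ) : ℝ)) := by positivity
  have hθ0 : 0 < θ := by rw [hθ]; linarith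
  have hθ1 : θ ≤ 1 := by rw [hθ]; linarith
  have hθr : 1 / 2 ≤ θ ^ (b + 1) := by
    have h := one_add_mul_le_pow (a := - (1 / (2 * ((b + 1 : ℕ) : ℝ)))) (by linarith) (b + 1)
    have h2 : 1 + ((b + 1 : ℕ) : ℝ) * -(1 / (2 * ((b + 1 : ℕ) : ℝ))) = 1 / 2 := by
      field_simp
      ring
    rw [h2] at h
    calc (1 : ℝ) / 2 ≤ _ := h
      _ = θ ^ (b + 1) := by rw [hθ]; ring
  set μ : ℝ := 2 * θ * b + θ * D + (2 ^ D - D) with hμ
  have hμlt : μ < 2 ^ D := by
    have h1 : 2 * θ * (b : ℝ) + θ * (D : ℝ) < D := by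
      have hDr : (D : ℝ) = 4 * ((b + 1 : ℕ) : ℝ) ^ 2 := by
        rw [hD]; push_cast; ring
      have hb : (b : ℝ) = ((b + 1 : ℕ) : ℝ) - 1 := by push_cast; ring
      rw [hDr, hb, hθ]
      set q : ℝ := ((b + 1 : ℕ) : ℝ) with hq
      have : 2 * (1 - 1 / (2 * q)) * (q - 1) + (1 - 1 / (2 * q)) * (4 * q ^ 2) =
          4 * q ^ 2 + (-3 + 1 / q) := by
        field_simp
        ring
      rw [this]
      have : 1 / q ≤ 1 := by
        rw [div_le_one hrpos]; linarith
      linarith
    rw [hμ]; linarith
  have hμ1 : 1 ≤ μ := by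
    have h1 : (D : ℝ) + 1 ≤ 2 ^ D := by
      have : D + 1 ≤ 2 ^ D := Nat.lt_two_pow_self
      exact_mod_cast this
    have h2 : 0 ≤ 2 * θ * (b : ℝ) := by positivity
    have h3 : 0 ≤ θ * (D : ℝ) := by positivity
    rw [hμ]; linarith
  set ν : ℝ := (μ + 2 ^ D) / 2 with hν
  have hμν : μ < ν := by rw [hν]; linarith
  have hνlt : ν < 2 ^ D := by rw [hν]; linarith
  have hν1 : 1 ≤ ν := by linarith
  set c : ℝ := ν ^ ((D : ℝ)⁻¹) with hc
  have hcD : c ^ D = ν := Real.rpow_inv_natCast_pow (by linarith) hDpos.ne'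
  have hc1 : 1 ≤ c := Real.one_le_rpow hν1 (by positivity)
  have hc2 : c < 2 := by
    apply lt_of_pow_lt_pow_left₀ D (by norm_num)
    rw [hcD]
    exact hνlt
  obtain ⟨N0, hN0⟩ := pow_unbounded_of_one_lt (2 * 2 ^ D : ℝ)
    (show (1 : ℝ) < ν / μ by rw [one_lt_div (by linarith)]; exact hμν)
  refine ⟨c, hc2, D * N0, ?_⟩
  intro n hn F hF
  set N : ℕ := n / D with hN
  have hNN : N0 ≤ N := by
    rw [hN, Nat.le_div_iff_mul_le hDpos]
    rwa [mul_comm] at hn
  have hdm := Nat.div_add_mod n D
  have hml := Nat.mod_lt n hDpos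
  have hND : N * D ≤ n := Nat.div_mul_le_self n D
  have hND' : n ≤ N * D + D := by
    rw [hN, mul_comm]
    omega
  have hbD : b ≤ D := by
    rw [hD]
    nlinarith
  have h1 := set_bound b D (b + 1) N n hr rfl hbD hND hND' F hF
  have h2 := card_Good b D (b + 1) N θ hθ0 hθ1 hθr
  rw [← hμ] at h2
  have h3 : (F.card : ℝ) ≤ 2 * μ ^ N * 2 ^ D := by
    have h4 : (F.card : ℝ) ≤ 2 * (Fintype.card (Good b D (b + 1) N) : ℝ) * 2 ^ D := by
      exact_mod_cast h1
    refine h4.trans ?_
    apply mul_le_mul_of_nonneg_right _ (by positivity)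
    linarith
  have h5 : (2 * 2 ^ D : ℝ) ≤ (ν / μ) ^ N := by
    refine hN0.le.trans ?_
    apply pow_le_pow_right₀ _ hNN
    rw [one_le_div (by linarith)]
    exact hμν.le
  have hμpos : 0 < μ ^ N := by
    apply pow_pos
    linarith
  have h6 : (2 * 2 ^ D) * μ ^ N ≤ ν ^ N := by
    rw [div_pow, le_div_iff₀ hμpos] at h5
    exact h5
  calc (F.card : ℝ) ≤ 2 * μ ^ N * 2 ^ D := h3
    _ = (2 * 2 ^ D) * μ ^ N := by ring
    _ ≤ ν ^ N := h6
    _ = c ^ (D * N) := by rw [← hcD, ← pow_mul]
    _ ≤ c ^ n := by
        apply pow_le_pow_right₀ hc1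
        rw [mul_comm]
        exact hND

end Pool.Agent.Helper12.ES
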