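import Mathlib

set_option autoImplicit false

open Finset

namespace Pool.Agent.Helper12.ES

/-- A subspace contains a vector of maximal support. -/
theorem exists_maxsupp {α : Type} [Fintype α] (K : Submodule ℚ (α → ℚ)) :
    ∃ φ ∈ K, ∀ ψ ∈ K, ∀ a, ψ a ≠ 0 → φ a ≠ 0 := by
  classical
  have key : ∀ s : Finset α, ∃ φ ∈ K, ∀ ψ ∈ K, ∀ a ∈ s, ψ a ≠ 0 → φ a ≠ 0 := by
    intro s
    induction s using Finset.induction_on with
    | empty => exact ⟨0, K.zero_mem, fun ψ _ a ha => absurd ha (notMem_empty a)⟩
    | insert a s ha ih =>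
      obtain ⟨φ, hφ, hs⟩ := ih
      by_cases h : ∃ ψ ∈ K, ψ a ≠ 0
      · obtain ⟨ψ, hψ, hψa⟩ := h
        obtain ⟨t, ht⟩ := Infinite.exists_notMem_finset
          (insert (- φ a / ψ a) ((insert a s).image (fun x => - φ x / ψ x)) ∪
            ({0} : Finset ℚ))
        simp only [mem_union, mem_insert, mem_image, mem_singleton, not_or, not_exists,
          not_and] at ht
        obtain ⟨⟨ht1, ht2⟩, ht0⟩ := ht
        refine ⟨φ + t • ψ, K.add_mem hφ (K.smul_mem t hψ), ?_⟩
        intro ξ hξ x hx hξx
        simp only [Pi.add_apply, Pi.smul_apply, smul_eq_mul]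
        intro h0
        by_cases hψx : ψ x = 0
        · rw [hψx, mul_zero, add_zero] at h0
          rw [mem_insert] at hx
          rcases hx with hx | hx
          · rw [hx] at hψx
            exact hψa hψx
          · exact hs ξ hξ x hx hξx h0
        · have : - φ x / ψ x = t := by
            rw [div_eq_iff hψx]
            linarith
          exact ht2 x (mem_insert.1 hx) this
      · push Not at h
        refine ⟨φ, hφ, ?_⟩
        intro ξ hξ x hx hξx
        rw [mem_insert] at hx
        rcases hx with hx | hx
        · rw [hx] at hξx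
          exact absurd (h ξ hξ) hξx
        · exact hs ξ hξ x hx hξx
  obtain ⟨φ, hφ, h⟩ := key univ
  exact ⟨φ, hφ, fun ψ hψ a ha => h ψ hψ a (mem_univ a) ha⟩

/-- The isotropy bound replacing slice rank. -/
theorem iso_bound {α ι : Type} [Fintype α] [Fintype ι] (m : ℕ)
    (E : ι → (α → ℚ) →ₗ[ℚ] ℚ)
    (H : ∀ φ : Fin (m + 2) → α → ℚ, (∀ j i, E i (φ j) = 0) → ∑ x, ∏ j, φ j x = 0) :
    Fintype.card α ≤ 2 * Fintype.card ι := by
  classical
  let L : (α → ℚ) →ₗ[ℚ] (ι → ℚ) := LinearMap.pi E
  set K : Submodule ℚ (α → ℚ) := LinearMap.ker L with hK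
  have hmem : ∀ φ, φ ∈ K → ∀ i, E i φ = 0 := by
    intro φ hφ i
    rw [hK, LinearMap.mem_ker] at hφ
    exact congrFun hφ i
  have h1 : Module.finrank ℚ (LinearMap.range L) + Module.finrank ℚ K = Fintype.card α := by
    have := LinearMap.finrank_range_add_finrank_ker L
    rw [Module.finrank_fintype_fun_eq_card] at this
    exact this
  have h2 : Module.finrank ℚ (LinearMap.range L) ≤ Fintype.card ι := by
    have := Submodule.finrank_le (LinearMap.range L)
    rw [Module.finrank_fintype_fun_eq_card] at this
    exact this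
  obtain ⟨φ, hφ, hmax⟩ := exists_maxsupp K
  have hzero : ∀ ψ ∈ K, ∀ ψ' ∈ K, ∑ x, (φ x ^ m * ψ x) * ψ' x = 0 := by
    intro ψ hψ ψ' hψ'
    have h := H (Fin.cons ψ (Fin.cons ψ' (fun _ : Fin m => φ))) (by
      intro j i
      refine Fin.cases ?_ (fun j => ?_) j
      · exact hmem ψ hψ i
      · refine Fin.cases ?_ (fun j => ?_) j
        · exact hmem ψ' hψ' i
        · exact hmem φ hφ i)
    rw [← h]
    refine sum_congr rfl fun x _ => ?_
    rw [Fin.prod_univ_succ, Fin.prod_univ_succ]
    simp only [Fin.cons_zero, Fin.cons_succ, prod_const, card_univ, Fintype.card_fin]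
    ring
  let G : K →ₗ[ℚ] Module.Dual ℚ (α → ℚ) :=
    { toFun := fun ψ =>
        { toFun := fun v => ∑ x, (φ x ^ m * ψ.1 x) * v x
          map_add' := by
            intro u v
            simp only [Pi.add_apply, mul_add, sum_add_distrib]
          map_smul' := by
            intro c v
            simp only [Pi.smul_apply, smul_eq_mul, RingHom.id_apply, mul_sum]
            refine sum_congr rfl fun x _ => ?_
            ring }
      map_add' := by
        intro u v
        ext w
        simp only [Submodule.coe_add, Pi.add_apply, LinearMap.coe_mk, AddHom.coe_mk,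
          LinearMap.add_apply, LinearMap.coe_comp, Function.comp_apply, LinearMap.coe_single]
        rw [← sum_add_distrib]
        refine sum_congr rfl fun x _ => ?_
        ring
      map_smul' := by
        intro c v
        ext w
        simp only [Submodule.coe_smul, Pi.smul_apply, smul_eq_mul, LinearMap.coe_mk, AddHom.coe_mk,
          LinearMap.smul_apply, LinearMap.coe_comp, Function.comp_apply, LinearMap.coe_single,
          RingHom.id_apply]
        rw [mul_sum]
        refine sum_congr rfl fun x _ => ?_
        ring }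
  have hGinj : Function.Injective G := by
    rw [← LinearMap.ker_eq_bot, LinearMap.ker_eq_bot']
    intro ψ hψ
    apply Subtype.ext
    funext a
    by_contra hne
    have hψa : ψ.1 a ≠ 0 := hne
    have hφa := hmax ψ.1 ψ.2 a hψa
    have h := congrArg (fun M => M (Pi.single a 1)) hψ
    have h' : ∑ x, (φ x ^ m * ψ.1 x) * (Pi.single a (1 : ℚ) : α → ℚ) x = 0 := h
    rw [sum_eq_single a] at h'
    · rw [Pi.single_eq_same, mul_one] at h'
      exact (mul_ne_zero (pow_ne_zero m hφa) hψa) h'
    · intro b _ hb
      rw [Pi.single_eq_of_ne hb, mul_zero]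
    · intro h
      exact absurd (mem_univ _) h
  have hGmem : ∀ ψ, G ψ ∈ K.dualAnnihilator := by
    intro ψ
    rw [Submodule.mem_dualAnnihilator]
    intro v hv
    exact hzero ψ.1 ψ.2 v hv
  let G' : K →ₗ[ℚ] K.dualAnnihilator := LinearMap.codRestrict _ G hGmem
  have hG' : Function.Injective G' := by
    intro a b hab
    apply hGinj
    exact congrArg Subtype.val hab
  have h3 : Module.finrank ℚ K ≤ Module.finrank ℚ K.dualAnnihilator :=
    LinearMap.finrank_le_finrank_of_injective hG'
  have h4 : Module.finrank ℚ K + Module.finrank ℚ K.dualAnnihilator = Fintype.card α := by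
    have := Subspace.finrank_add_finrank_dualAnnihilator_eq K
    rw [Module.finrank_fintype_fun_eq_card] at this
    exact this
  omega

end Pool.Agent.Helper12.ES
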