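import Pool.Agent.Helper12.ES.Exist
import Pool.Agent.Helper12.ES.Iso

set_option autoImplicit false

open Finset

namespace Pool.Agent.Helper12.ES

/-- Blocks which are not singletons. -/
abbrev NS (D : ℕ) : Type := {e : Finset (Fin D) // e.card ≠ 1}

/-- Slice labels. -/
abbrev CC (b D : ℕ) : Type := (Fin b ⊕ Fin D) ⊕ NS D

/-- Term labels. -/
abbrev PP (b D r : ℕ) : Type := (Fin r → Fin b ⊕ Fin D) ⊕ NS D

/-- The slice label in one slot of a term. -/
def slot {b D r : ℕ} : PP b D r → Fin r → CC b D
  | Sum.inl c, j => Sum.inl (c j)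
  | Sum.inr e, _ => Sum.inr e

/-- Singleton type labels. -/
def isS {b D : ℕ} (c : CC b D) : Prop := ∃ y, c = Sum.inl y

/-- Labels of the small type. -/
def isB {b D : ℕ} (c : CC b D) : Prop := ∃ i, c = Sum.inl (Sum.inl i)

/-- The tensor on blocks. -/
theorem exists_TL (k b D r : ℕ) (hkb : k + b = D) (hr : 2 ≤ r) (hkr : k + r ≤ D + 1) :
    ∃ (TL : (Fin r → Finset (Fin D)) → ℚ) (HL : CC b D → Finset (Fin D) → ℚ)
      (τ : PP b D r → ℚ),
      (∀ u, TL (fun _ => u) = 1) ∧
      (∀ s, TL s ≠ 0 → (∃ u, s = fun _ => u) ∨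
        (∃ z : Fin r → Fin D, Function.Injective z ∧ s = fun j => {z j})) ∧
      (∀ s, TL s = ∑ p, τ p * ∏ j, HL (slot p j) (s j)) ∧
      (∀ c, τ (Sum.inl c) ≠ 0 → ∃ j i, c j = Sum.inl i) := by
  classical
  obtain ⟨T, hT1, hT2, hT3⟩ := exists_T k D r hr hkr
  obtain ⟨H, τ, hH, hτ⟩ := slices k b D r hkb T hT3
  let HL : CC b D → Finset (Fin D) → ℚ := fun c s => match c with
    | Sum.inl y => ∑ z : Fin D, H y z * (if s = {z} then 1 else 0)
    | Sum.inr e => if s = e.1 then 1 else 0
  let τL : PP b D r → ℚ := fun p => match p with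
    | Sum.inl c => τ c
    | Sum.inr _ => 1
  let TL : (Fin r → Finset (Fin D)) → ℚ := fun s =>
    (∑ z : Fin r → Fin D, T z * ∏ j, (if s j = {z j} then (1 : ℚ) else 0)) +
      ∑ e : NS D, ∏ j, (if s j = e.1 then (1 : ℚ) else 0)
  have hj0 : 0 < r := by omega
  refine ⟨TL, HL, τL, ?_, ?_, ?_, ?_⟩
  · intro u
    simp only [TL]
    by_cases hu : u.card = 1
    · obtain ⟨a, ha⟩ := card_eq_one.1 hu
      have h1 : ∑ z : Fin r → Fin D, T z * ∏ j : Fin r, (if u = {z j} then (1 : ℚ) else 0) = 1 := by
        rw [sum_eq_single (fun _ => a)]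
        · rw [hT1]
          simp [ha]
        · intro z _ hz
          obtain ⟨j, hj⟩ := Function.ne_iff.1 hz
          rw [prod_eq_zero (mem_univ j), mul_zero]
          rw [if_neg]
          intro h
          rw [ha, singleton_inj] at h
          exact hj h.symm
        · intro h
          exact absurd (mem_univ _) h
      have h2 : ∑ e : NS D, ∏ j : Fin r, (if u = e.1 then (1 : ℚ) else 0) = 0 := by
        refine sum_eq_zero fun e _ => ?_
        rw [prod_eq_zero (mem_univ (⟨0, hj0⟩ : Fin r))]
        rw [if_neg]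
        intro h
        exact e.2 (h ▸ hu)
      rw [h1, h2, add_zero]
    · have h1 : ∑ z : Fin r → Fin D, T z * ∏ j : Fin r, (if u = {z j} then (1 : ℚ) else 0) = 0 := by
        refine sum_eq_zero fun z _ => ?_
        rw [prod_eq_zero (mem_univ (⟨0, hj0⟩ : Fin r)), mul_zero]
        rw [if_neg]
        intro h
        apply hu
        rw [h, card_singleton]
      have h2 : ∑ e : NS D, ∏ j : Fin r, (if u = e.1 then (1 : ℚ) else 0) = 1 := by
        rw [sum_eq_single (⟨u, hu⟩ : NS D)]
        · simp
        · intro e _ he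
          rw [prod_eq_zero (mem_univ (⟨0, hj0⟩ : Fin r))]
          rw [if_neg]
          intro h
          exact he (Subtype.ext h.symm)
        · intro h
          exact absurd (mem_univ _) h
      rw [h1, h2, zero_add]
  · intro s hs
    by_contra hne
    push Not at hne
    obtain ⟨hne1, hne2⟩ := hne
    apply hs
    simp only [TL]
    have h1 : ∑ z : Fin r → Fin D, T z * ∏ j : Fin r, (if s j = {z j} then (1 : ℚ) else 0) = 0 := by
      refine sum_eq_zero fun z _ => ?_
      by_cases hz : T z = 0
      · rw [hz, zero_mul]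
      by_cases hall : ∀ j, s j = {z j}
      · exfalso
        rcases hT2 z hz with ⟨a, ha⟩ | hi
        · apply hne1 {a}
          funext j
          rw [hall j, ha]
        · exact hne2 z hi (funext hall)
      · push Not at hall
        obtain ⟨j, hj⟩ := hall
        rw [prod_eq_zero (mem_univ j), mul_zero]
        rw [if_neg hj]
    have h2 : ∑ e : NS D, ∏ j : Fin r, (if s j = e.1 then (1 : ℚ) else 0) = 0 := by
      refine sum_eq_zero fun e _ => ?_
      by_cases hall : ∀ j, s j = e.1
      · exact absurd (funext hall) (hne1 e.1)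
      · push Not at hall
        obtain ⟨j, hj⟩ := hall
        rw [prod_eq_zero (mem_univ j)]
        rw [if_neg hj]
    rw [h1, h2, add_zero]
  · intro s
    rw [Fintype.sum_sum_type]
    simp only [TL]
    congr 1
    · have hc : ∀ c : Fin r → Fin b ⊕ Fin D,
          τL (Sum.inl c) * ∏ j, HL (slot (Sum.inl c : PP b D r) j) (s j) =
          ∑ z : Fin r → Fin D, τ c * ∏ j, (H (c j) (z j) * (if s j = {z j} then 1 else 0)) := by
        intro c
        simp only [τL, HL, slot]
        rw [Finset.prod_univ_sum, Fintype.piFinset_univ, mul_sum]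
      simp only [hc]
      rw [sum_comm]
      refine sum_congr rfl fun z _ => ?_
      rw [hH z, sum_mul]
      refine sum_congr rfl fun c _ => ?_
      rw [prod_mul_distrib, mul_assoc]
    · refine sum_congr rfl fun e _ => ?_
      simp only [τL, HL, slot, one_mul]
  · intro c hc
    exact hτ c hc

/-- Few slices are needed. -/
theorem pigeon {b D r N : ℕ} (hr : 0 < r) (q : Fin N → PP b D r)
    (hq : ∀ g c, q g = Sum.inl c → ∃ j i, c j = Sum.inl i) :
    ∃ j : Fin r, Nat.card {g : Fin N // isS (slot (q g) j)} ≤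
      r * Nat.card {g : Fin N // isB (slot (q g) j)} := by
  classical
  by_contra hne
  push Not at hne
  set m : ℕ := (univ.filter (fun g : Fin N => ∃ c, q g = Sum.inl c)).card with hm
  have hS : ∀ j : Fin r, Nat.card {g : Fin N // isS (slot (q g) j)} = m := by
    intro j
    rw [Nat.card_eq_fintype_card, Fintype.card_subtype, hm]
    congr 1
    ext g
    simp only [mem_filter, mem_univ, true_and]
    cases hg : q g with
    | inl c => simp [slot, isS]
    | inr e => simp [slot, isS]
  have hB : m ≤ ∑ j : Fin r, Nat.card {g : Fin N // isB (slot (q g) j)} := by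
    have h1 : (univ.filter (fun g : Fin N => ∃ c, q g = Sum.inl c)) ⊆
        univ.biUnion (fun j : Fin r => univ.filter (fun g : Fin N => isB (slot (q g) j))) := by
      intro g hg
      rw [mem_filter] at hg
      obtain ⟨c, hc⟩ := hg.2
      obtain ⟨j, i, hji⟩ := hq g c hc
      rw [mem_biUnion]
      refine ⟨j, mem_univ _, ?_⟩
      rw [mem_filter]
      refine ⟨mem_univ _, i, ?_⟩
      rw [hc]
      simp only [slot]
      rw [hji]
    refine (card_le_card h1).trans (card_biUnion_le.trans (le_of_eq ?_))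
    refine sum_congr rfl fun j _ => ?_
    rw [Nat.card_eq_fintype_card, Fintype.card_subtype]
  have h2 : ∑ j : Fin r, r * Nat.card {g : Fin N // isB (slot (q g) j)} < ∑ _j : Fin r, m := by
    apply sum_lt_sum_of_nonempty ⟨⟨0, hr⟩, mem_univ _⟩
    intro j _
    rw [← hS j]
    exact hne j
  rw [← mul_sum, sum_const, card_univ, Fintype.card_fin, smul_eq_mul] at h2
  have h3 : r * m ≤ r * ∑ j : Fin r, Nat.card {g : Fin N // isB (slot (q g) j)} :=
    Nat.mul_le_mul_left r hB
  omega

/-- Good slice words. -/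
def Good (b D r N : ℕ) : Type :=
  {c : Fin N → CC b D // Nat.card {g : Fin N // isS (c g)} ≤ r * Nat.card {g : Fin N // isB (c g)}}

noncomputable instance (b D r N : ℕ) : Fintype (Good b D r N) := by
  classical
  unfold Good
  infer_instance

/-- The bound for words without sunflowers. -/
theorem word_bound (k b D r N : ℕ) (hkb : k + b = D) (hr : 2 ≤ r) (hkr : k + r ≤ D + 1)
    (F : Finset (Fin N → Finset (Fin D)))
    (hF : ∀ X : Fin r → Fin N → Finset (Fin D), Function.Injective X → (∀ j, X j ∈ F) →
      ¬ ∀ g, (∃ u, (fun j => X j g) = fun _ => u) ∨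
        (∃ z : Fin r → Fin D, Function.Injective z ∧ (fun j => X j g) = fun j => {z j})) :
    F.card ≤ 2 * Fintype.card (Good b D r N) := by
  classical
  obtain ⟨TL, HL, τ, h1, h2, h3, h4⟩ := exists_TL k b D r hkb hr hkr
  obtain ⟨m, rfl⟩ : ∃ m, r = m + 2 := ⟨r - 2, by omega⟩
  let E : Good b D (m + 2) N → ({x // x ∈ F} → ℚ) →ₗ[ℚ] ℚ := fun c =>
    { toFun := fun φ => ∑ x, φ x * ∏ g, HL (c.1 g) (x.1 g)
      map_add' := by
        intro f g
        simp only [Pi.add_apply, add_mul, sum_add_distrib]
      map_smul' := by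
        intro a f
        simp only [Pi.smul_apply, smul_eq_mul, RingHom.id_apply, mul_sum, mul_assoc] }
  have hmain := iso_bound (α := {x // x ∈ F}) m E ?_
  · rwa [Fintype.card_coe] at hmain
  intro φ hφ
  -- the full sum
  have hS1 : ∑ X : Fin (m + 2) → {x // x ∈ F},
      (∏ j, φ j (X j)) * ∏ g, TL (fun j => (X j).1 g) = ∑ x, ∏ j, φ j x := by
    have hconst : ∀ X : Fin (m + 2) → {x // x ∈ F}, (∏ g, TL (fun j => (X j).1 g)) ≠ 0 →
        X = fun _ => X 0 := by
      intro X hX
      rw [prod_ne_zero_iff] at hX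
      have hg : ∀ g, (∃ u, (fun j => (X j).1 g) = fun _ => u) ∨
        (∃ z : Fin (m + 2) → Fin D, Function.Injective z ∧ (fun j => (X j).1 g) = fun j => {z j}) :=
        fun g => h2 _ (hX g (mem_univ _))
      have hni : ¬ Function.Injective X := by
        intro hi
        refine hF (fun j => (X j).1) ?_ (fun j => (X j).2) hg
        intro i j hij
        exact hi (Subtype.ext hij)
      rw [Function.Injective] at hni
      push Not at hni
      obtain ⟨i, j, hij, hne⟩ := hni
      funext l
      apply Subtype.ext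
      funext g
      rcases hg g with ⟨u, hu⟩ | ⟨z, hz, hzz⟩
      · have ha := congrFun hu l
        have hb := congrFun hu 0
        exact ha.trans hb.symm
      · exfalso
        apply hne
        apply hz
        have ha : (X i).1 g = {z i} := congrFun hzz i
        have hb : (X j).1 g = {z j} := congrFun hzz j
        rw [hij] at ha
        rw [ha] at hb
        exact singleton_inj.1 hb
    symm
    apply Finset.sum_bij_ne_zero (fun x _ _ => (fun _ => x))
    · intro x _ _
      exact mem_univ _
    · intro x _ _ y _ _ hxy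
      exact congrFun hxy 0
    · intro X _ hX
      have hX' : (∏ g, TL (fun j => (X j).1 g)) ≠ 0 := right_ne_zero_of_mul hX
      have hc := hconst X hX'
      refine ⟨X 0, mem_univ _, ?_, hc.symm⟩
      have := left_ne_zero_of_mul hX
      rw [hc] at this
      exact this
    · intro x _ _
      have : ∏ g, TL (fun _ => x.1 g) = 1 := by
        rw [prod_eq_one]
        intro g _
        exact h1 _
      rw [this, mul_one]
  rw [← hS1]
  have hS2 : ∀ X : Fin (m + 2) → {x // x ∈ F},
      (∏ j, φ j (X j)) * ∏ g, TL (fun j => (X j).1 g) =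
      ∑ q : Fin N → PP b D (m + 2), (∏ g, τ (q g)) *
        ∏ j, (φ j (X j) * ∏ g, HL (slot (q g) j) ((X j).1 g)) := by
    intro X
    simp only [h3]
    rw [Finset.prod_univ_sum, Fintype.piFinset_univ, mul_sum]
    refine sum_congr rfl fun q _ => ?_
    rw [prod_mul_distrib, prod_mul_distrib, prod_comm]
    ring
  simp only [hS2]
  rw [sum_comm]
  refine sum_eq_zero fun q _ => ?_
  rw [← mul_sum]
  by_cases hq : ∏ g, τ (q g) = 0
  · rw [hq, zero_mul]
  rw [prod_eq_zero_iff] at hq
  push Not at hq
  obtain ⟨j, hj⟩ := pigeon (by omega) q (fun g c hgc => by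
    apply h4 c
    rw [← hgc]
    exact hq g (mem_univ _))
  have hE : ∑ x, φ j x * ∏ g, HL (slot (q g) j) (x.1 g) = 0 :=
    hφ j (⟨fun g => slot (q g) j, hj⟩ : Good b D (m + 2) N)
  have hprod := Finset.prod_univ_sum (fun _ : Fin (m + 2) => (univ : Finset {x // x ∈ F}))
    (fun j x => φ j x * ∏ g, HL (slot (q g) j) (x.1 g))
  rw [Fintype.piFinset_univ] at hprod
  rw [← hprod, prod_eq_zero (mem_univ j) hE, mul_zero]

end Pool.Agent.Helper12.ES
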